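import Pool.Agent.J4H60.IF.Stm

set_option autoImplicit false

namespace Pool.Agent.J4H51.IF

open Finset Pool.Agent.J4H60.IF

theorem tot : ∑ X : V, max ((X.card : ℤ) - 3) 0 = 102 := by
  have h : (univ : Finset V) = (univ : Finset (Fin 7)).powerset := by
    ext X; simp
  rw [h, Finset.sum_powerset_apply_card (fun n : ℕ => max ((n : ℤ) - 3) 0)]
  simp [Finset.sum_range_succ, Nat.choose]

theorem t_W : S_W := by
  intro A hA h
  have h1 : ∑ X ∈ A, ((X.card : ℤ) - 3) = 5 * 84 - ∑ X ∈ A, (8 - (X.card : ℤ)) := by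
    have h2 : ∑ X ∈ A, ((X.card : ℤ) - 3) + ∑ X ∈ A, (8 - (X.card : ℤ)) = 5 * 84 := by
      rw [← Finset.sum_add_distrib]
      have h3 : ∀ X ∈ A, ((X.card : ℤ) - 3) + (8 - (X.card : ℤ)) = 5 := by
        intro X _; ring
      rw [Finset.sum_congr rfl h3, Finset.sum_const, hA]
      norm_num
    linarith
  have h4 : (102 : ℤ) ≤ ∑ X : V, (if X ∈ A then ((X.card : ℤ) - 3) else 0) := by
    rw [Finset.sum_ite_mem, Finset.univ_inter]
    linarith
  have h5 : ∀ X : V, (if X ∈ A then ((X.card : ℤ) - 3) else 0) ≤ max ((X.card : ℤ) - 3) 0 := by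
    intro X
    split_ifs
    · exact le_max_left _ _
    · exact le_max_right _ _
  have h6 : ∀ X : V, (if X ∈ A then ((X.card : ℤ) - 3) else 0) = max ((X.card : ℤ) - 3) 0 := by
    have h7 := (Finset.sum_eq_sum_iff_of_le (s := (univ : Finset V))
      (f := fun X => (if X ∈ A then ((X.card : ℤ) - 3) else 0))
      (g := fun X => max ((X.card : ℤ) - 3) 0) (fun X _ => h5 X)).1 (by
        refine le_antisymm (Finset.sum_le_sum fun X _ => h5 X) ?_
        rw [tot]
        exact h4)
    intro X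
    exact h7 X (Finset.mem_univ X)
  constructor
  · intro X hX
    have h8 := h6 X
    rw [if_pos hX] at h8
    have h9 : (0 : ℤ) ≤ (X.card : ℤ) - 3 := by
      rw [h8]; exact le_max_right _ _
    omega
  · intro X hX
    by_contra hn
    have h8 := h6 X
    rw [if_neg hn] at h8
    have h9 : ((X.card : ℤ) - 3) ≤ 0 := by
      rw [h8]; exact le_max_left _ _
    have h10 : 4 ≤ X.card := by
      simpa [U] using hX
    omega

end Pool.Agent.J4H51.IF
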